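import Pool.Agent.W647.HX2

/-!
# Chern characters of `K₀` of group-graded rings at the elements of finite order

Let `S` be a ring graded by a group `G`, for example the endomorphism ring of an object of the
twisted group category `𝒜[G]` of an additive `G`-category `𝒜`, a crossed product, a twisted or a
skew group ring, and let `T` be a trace on `S`. For `g ∈ G` of finite order the classes of degree
`2 k` in the cohomology of `C(g) / ⟨g⟩`, with arbitrary coefficients, pair with the idempotent
matrices over `S`, through the component at the conjugacy class of `g` of the Chern character. We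
prove that these numbers are infinitely divisible if `k ≥ 1`, up to the factor `(2 k)! / k!`.
-/

set_option autoImplicit false

namespace Pool.Agent.Results.MP_5d3e93_al.GradedChernNumbers

open Pool.Agent.W647.HX1

universe u1 u2 u3 u4 u5

/-- Let `S` be a ring graded by a group `G`, with homogeneous components `𝒮 g`, `A` and `M` abelian
groups, `T : S × A → M` biadditive with `T (x y, a) = T (y x, a)`, `g ∈ G` of finite order, `k ≥ 1`
and `c` an `A`-valued cocycle of degree `2 k` on `G` which represents a class of `C(g) / ⟨g⟩`. Let `e`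
be an idempotent matrix over `S` and `τ = ∑ T (tr (e_{w 0} ⋯ e_{w (2 k)}),
c (t, t w₀, t w₀ w₁, …, t w₀ ⋯ w_{2 k - 1}))`, the sum over all `w ∈ G ^ (2 k + 1)` whose product `y`
is conjugate to `g`, where `t y t⁻¹ = g` and `e_s` is the homogeneous component of `e` of degree
`s`. Then `((2 k)! / k!) τ` is divisible in `M` by all `N ≥ 1`, and `τ = 0` if `N M = 0` for some
`N ≥ 1` prime to `(2 k)! / k!`. -/
theorem result (G : Type u1) [Group G] [DecidableEq G] (S : Type u2) [Ring S]
    (𝒮 : G → AddSubgroup S) [DirectSum.Decomposition 𝒮] (h1 : (1 : S) ∈ 𝒮 1)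
    (hmul : ∀ g h : G, ∀ x ∈ 𝒮 g, ∀ y ∈ 𝒮 h, x * y ∈ 𝒮 (g * h))
    (A : Type u3) [AddCommGroup A] (M : Type u4) [AddCommGroup M]
    (T : S →+ A →+ M) (hT : ∀ x y, T (x * y) = T (y * x))
    (g : G) (hg : IsOfFinOrder g) (t : G → G) (ht : ∀ y, IsConj y g → t y * y * (t y)⁻¹ = g)
    (k : ℕ) (hk : 1 ≤ k) (c : (Fin (2 * k + 1) → G) → A) (hc : IsClassCoc g c)
    (d : Type u5) [Fintype d] [DecidableEq d] (e : Matrix d d S) (he : e * e = e) :
    (∀ N : ℕ, N ≠ 0 → ∃ y : M,
      (2 * k).descFactorial k • evTau T g t c (gc 𝒮 e) = N • y) ∧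
    (∀ N : ℕ, N ≠ 0 → N.Coprime ((2 * k).descFactorial k) → (∀ y : M, N • y = 0) →
      evTau T g t c (gc 𝒮 e) = 0) := by
  have h0 : ∀ N : ℕ, N ≠ 0 → ∃ y : M,
      (2 * k).descFactorial k • evTau T g t c (gc 𝒮 e) = N • y :=
    fun N hN => graded_even 𝒮 h1 hmul T hT hg ht (by omega) hc e he N hN
  refine ⟨h0, fun N hN hcop hM => ?_⟩
  obtain ⟨y, hy⟩ := h0 N hN
  rw [hM] at hy
  have h3 := Nat.gcd_eq_gcd_ab N ((2 * k).descFactorial k)
  rw [hcop] at h3
  have h4 : ((N : ℤ) * (Nat.gcdA N ((2 * k).descFactorial k)) +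
      (((2 * k).descFactorial k : ℕ) : ℤ) * (Nat.gcdB N ((2 * k).descFactorial k))) •
        evTau T g t c (gc 𝒮 e) = evTau T g t c (gc 𝒮 e) := by
    rw [← h3, Nat.cast_one, one_smul]
  rw [add_smul, mul_smul, natCast_zsmul, hM, zero_add, mul_smul, natCast_zsmul, smul_comm, hy,
    smul_zero] at h4
  exact h4.symm

end Pool.Agent.Results.MP_5d3e93_al.GradedChernNumbers
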