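import Pool.Agent.W647.G4
import Pool.Agent.H290R4.ChernZ

/-!
# Chern-Connes characters of `K₀` of group-graded rings

Let `S` be a ring graded by a group `G`, for example the endomorphism ring of an object of the
twisted group category `𝒜[G]` of an additive `G`-category `𝒜`, a crossed product or a twisted
group ring. We show that a cycle of even dimension over `S` takes the value `0` on every idempotent
matrix over `S` as soon as it vanishes at the bad elements of `G`; here `g` is good if, for some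
prime `p` such that the values have no nonzero elements divisible by all powers of `p`, `g` is not
conjugate to `g ^ (p ^ j)` for `j ≥ 1`.
-/

set_option autoImplicit false

namespace Pool.Agent.Results.MP_5d3e93_al.GradedTraces

open Pool.Agent.H23R2 Pool.Agent.H23R2.Ch Pool.Agent.W647

universe u1 u2 u3 u4 u5 u6

/-- Let `S` be a `k`-algebra graded by a group `G` (`k` any commutative ring, e.g. `ℤ`), with
homogeneous components `𝒮 g`, `e` an idempotent matrix over `S`, and `(Ω, δ, T)` a cycle of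
dimension `2 n ≥ 0` over `S` with values in a `k`-module `M`. Suppose that for every finitely
generated subgroup `H` of `G` and every `g` in `H` one of the following holds: `g` is not conjugate
in `H` to `g ^ (p ^ j)` for `j ≥ 1`, where `p` is a prime such that `M` has no nonzero element
divisible by all powers of `p`; or `g ≠ 1`, `H` is residually finite or linear over a field, and
`M` has this property for all primes; or `T (s₀ δs₁ ⋯ δs₂ₙ) = 0` for all homogeneous `s_i` of
degree in `H` such that the product of the degrees is `g`. Then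
`binom (2 n) n • T (tr (e (δ e) ^ (2 n))) = 0`. -/
theorem result (k : Type u1) [CommRing k] (G : Type u2) [Group G] [DecidableEq G]
    (S : Type u3) [Ring S] [Algebra k S] (𝒮 : G → Submodule k S)
    (hint : DirectSum.IsInternal 𝒮) (h1 : (1 : S) ∈ 𝒮 1)
    (hmul : ∀ g h : G, ∀ x ∈ 𝒮 g, ∀ y ∈ 𝒮 h, x * y ∈ 𝒮 (g * h))
    (d : ℕ) (e : Matrix (Fin d) (Fin d) S) (he : e * e = e)
    (M : Type u4) [AddCommGroup M] [Module k M] (n : ℕ)
    (Ω : Type u5) [Ring Ω] [Algebra k Ω] (𝒜 : ℕ → Submodule k Ω) [GradedAlgebra 𝒜]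
    (δ : Ω →ₗ[k] Ω) (T : Ω →ₗ[k] M) (h : IsCycle (2 * n) 𝒜 δ T)
    (ρ : S →ₐ[k] Ω) (hρ : ∀ a, ρ a ∈ 𝒜 0)
    (hloc : ∀ H : Subgroup G, H.FG → ∀ g ∈ H,
      (∃ p : ℕ, p.Prime ∧ (∀ x : M, (∀ m : ℕ, ∃ y : M, p ^ m • y = x) → x = 0) ∧
        ∀ j, 1 ≤ j → ∀ c ∈ H, c * g * c⁻¹ ≠ g ^ p ^ j) ∨
      (g ≠ 1 ∧ (∀ p : ℕ, p.Prime → ∀ x : M, (∀ m : ℕ, ∃ y : M, p ^ m • y = x) → x = 0) ∧
        (Group.ResiduallyFinite H ∨
          ∃ (K : Type u6) (_ : Field K) (N : ℕ) (φ : H →* GL (Fin N) K),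
            Function.Injective φ)) ∨
      (∀ (g₀ : G) (s₀ : S) (l : List (G × S)), g₀ ∈ H → s₀ ∈ 𝒮 g₀ →
        (∀ q ∈ l, q.1 ∈ H ∧ q.2 ∈ 𝒮 q.1) → l.length = 2 * n →
        g₀ * (l.map Prod.fst).prod = g → T (ρ s₀ * (l.map fun q => δ (ρ q.2)).prod) = 0)) :
    ((2 * n).choose n) • T ((e.map ρ) * ((e.map ρ).map δ) ^ (2 * n)).trace = 0 := by
  classical
  have htop : ⨆ g, 𝒮 g = ⊤ := DirectSum.IsInternal.submodule_iSup_eq_top hint
  obtain ⟨H, hH, heH⟩ := G4.exists_fg htop e
  have hFG : Group.FG H := (Group.fg_iff_subgroup_fg H).2 hH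
  refine G4.vanish (H := H) hint h1 hmul h hρ ?_ e he heH
  intro g
  by_cases hgood : ∃ p : ℕ, p.Prime ∧ Sep M p ∧ ∀ j, 1 ≤ j → ¬ IsConj g (g ^ p ^ j)
  · exact Or.inl hgood
  right
  intro a l hl hconj
  have hbad : ¬ ∃ p : ℕ, p.Prime ∧ Sep M p ∧ ∀ j, 1 ≤ j →
      ¬ IsConj (a.1 * (l.map Sigma.fst).prod) ((a.1 * (l.map Sigma.fst).prod) ^ p ^ j) := by
    rintro ⟨p, hp, hM, hj⟩
    exact hgood ⟨p, hp, hM, fun j hj1 hc => hj j hj1 (hconj.trans (hc.trans (hconj.symm.pow _)))⟩
  rcases hloc H hH _ (a.1 * (l.map Sigma.fst).prod).2 with ⟨p, hp, hM, hc⟩ | ⟨hg1, hM, hRF⟩ | hT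
  · exfalso
    apply hbad
    refine ⟨p, hp, hM, fun j hj1 hcj => ?_⟩
    obtain ⟨c, hc2⟩ := isConj_iff.1 hcj
    exact hc j hj1 c c.2 (by simpa using congrArg Subtype.val hc2)
  · exfalso
    apply hbad
    have hRF' : Group.ResiduallyFinite H := by
      rcases hRF with h2 | ⟨K, iK, N, φ, hφ⟩
      · exact h2
      · exact Pool.Agent.H290R4.ChernZ.malcev φ hφ
    obtain ⟨p, hp, hc⟩ := Pool.Agent.H290R4.ChernZ.exists_prime
      (a.1 * (l.map Sigma.fst).prod) (fun h0 => hg1 (congrArg Subtype.val h0))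
    refine ⟨p, hp, hM p hp, fun j hj1 hcj => ?_⟩
    obtain ⟨c, hc2⟩ := isConj_iff.1 hcj
    exact hc j hj1 c hc2
  · have h2 := hT a.1 a.2 (l.map fun q => ((q.1 : G), (q.2 : S))) a.1.2 a.2.2 (by
      intro q hq
      obtain ⟨q', _, rfl⟩ := List.mem_map.1 hq
      exact ⟨q'.1.2, q'.2.2⟩) (by simpa using hl) (by
      rw [List.map_map, Subgroup.coe_mul]
      congr 1
      have h3 : ∀ l : List (G4.Let 𝒮 H), (l.map (Prod.fst ∘ fun q => ((q.1 : G), (q.2 : S)))).prod =
          (((l.map Sigma.fst).prod : H) : G) := by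
        intro l
        induction l with
        | nil => simp
        | cons q l ih => rw [List.map_cons, List.map_cons, List.prod_cons, List.prod_cons,
            Subgroup.coe_mul, ih]; rfl
      exact h3 l)
    rw [List.map_map] at h2
    exact h2

end Pool.Agent.Results.MP_5d3e93_al.GradedTraces
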